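import Pool.Agent.MTF.StmtsA
import Pool.Agent.MT100D.Stmts
import Pool.Agent.Helper46_MT.LieC

/-! MTF (few constants), statements of the modules on families. -/

set_option autoImplicit false

namespace Pool.Agent.MTF

open Matrix Polynomial Pool.Agent.MT100 Pool.Agent.MT100G Pool.Agent.MT100A Pool.Agent.MT100D
  Pool.Agent.Helper78_MT Pool.Agent.Helper46_MT

universe u

/-- PER: persistence of the rational relations of the (scaled) value at `1/n`, infinitesimally -/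
def PerStmt : Prop :=
  ∀ (d : Type) [Fintype d] [DecidableEq d] (F : Family d), ∃ (D : ℕ) (t : ℕ → ℂ),
    (∀ n, t n ≠ 0) ∧ ∀ e : ℕ, ∃ n0 : ℕ, ∀ n : ℕ, n0 ≤ n →
    ∀ R : MvPolynomial (d × d) ℚ, R.totalDegree ≤ e →
      MvPolynomial.aeval (fun p : d × d => t n * F.tv D n p.1 p.2) R = 0 →
      ∀ x ∈ H78.nilP (F.mo Set.univ),
        ∑ p : d × d, MvPolynomial.aeval (fun p : d × d => t n * F.tv D n p.1 p.2)
          (MvPolynomial.pderiv p R) *
            (t n * (F.tv D n * ((F.R n)⁻¹ * x * F.R n)) p.1 p.2) = 0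

/-- NIP: the nilpotent elements of the two monodromy groups -/
def NipStmt : Prop :=
  ∀ (d : Type) [Fintype d] [DecidableEq d] (F : Family d) (P : Matrix d d ℂ), IsUnit P.det →
    ∀ X ∈ H78.nilP (F.Mo P), ∃ x ∈ H78.nilP (F.mo Set.univ), X = P * xᵀ * P⁻¹

/-- COD: for all large `n` the codimension of the Mumford-Tate domain of the fibre in the generic one
is at most the number of the period constants -/
def CodStmt : Prop :=
  ∀ (d : Type) [Fintype d] [DecidableEq d] (F : Family d) (w : ℕ) (lev : d → ℕ), 1 ≤ w →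
    ∀ P : Matrix d d ℂ, IsUnit P.det → ∀ (δ : ℕ) (c : Fin δ → ℂ),
    (∀ i j, IsAlgebraic (IntermediateField.adjoin ℚ (Set.range c)) (P i j)) →
    ∀ m : ℕ, δ + (if F.N = 0 then 0 else 1) ≤ m →
    ∃ n0 : ℕ, ∀ n : ℕ, n0 ≤ n → ∀ (E : Matrix d d ℚ) (V : ℕ → Submodule ℂ (d → ℂ)),
      PolHodge w E V → F.HasFil lev P n V → ∀ I : Set (MvPolynomial (d × d) ℚ),
      IsAlgSubgroup I → hodgeTorus w V ⊆ zeros I ℂ → ∀ X : Fin (m + 1) → Matrix d d ℂ,
      (∀ j, X j ∈ H78.nilP (F.Mo P)) →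
      ∃ l : Fin (m + 1) → ℂ, l ≠ 0 ∧ ∑ j, l j • X j ∈ Ul I E ⊔ F0 V

/-- HLS: the Lie algebra of a group containing the Deligne torus satisfies `HL` (odd weight) -/
def HlsStmt : Prop :=
  ∀ (d : Type) [Fintype d] [DecidableEq d] (w : ℕ) (E : Matrix d d ℚ)
    (V : ℕ → Submodule ℂ (d → ℂ)), Odd w → PolHodge w E V →
    ∀ I : Set (MvPolynomial (d × d) ℚ), IsAlgSubgroup I → hodgeTorus w V ⊆ zeros I ℂ →
    HL w (E.map (algebraMap ℚ ℂ)) V (Ul I E)

/-- the monodromy group is Zariski dense in the symplectic group of `E` -/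
def SpDense {d : Type} [Fintype d] [DecidableEq d] (M : Set (Matrix d d ℂ)) (E : Matrix d d ℚ) :
    Prop :=
  ∀ g : Matrix d d ℂ, gᵀ * E.map (algebraMap ℚ ℂ) * g = E.map (algebraMap ℚ ℂ) →
    g ∈ zclosure ℂ ℂ M

/-- LVD: the Hodge numbers are the numbers of forms of given level -/
def LvdStmt : Prop :=
  ∀ (d : Type) [Fintype d] [DecidableEq d] (F : Family d) (w : ℕ) (lev : d → ℕ)
    (P : Matrix d d ℂ), IsUnit P.det → ∃ n0 : ℕ, ∀ n : ℕ, n0 ≤ n → ∀ (E : Matrix d d ℚ)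
    (V : ℕ → Submodule ℂ (d → ℂ)), PolHodge w E V → F.HasFil lev P n V →
    ∀ p, Module.finrank ℂ (V p) = Fintype.card {a // lev a = p}

/-- GSP: if all the groups contain the symplectic Lie algebra, the Mumford-Tate group is the group of
the similitudes -/
def GspStmt : Prop :=
  ∀ (d : Type) [Fintype d] [DecidableEq d] (w : ℕ) (E : Matrix d d ℚ)
    (V : ℕ → Submodule ℂ (d → ℂ)), Odd w → PolHodge w E V →
    (∀ I : Set (MvPolynomial (d × d) ℚ), IsAlgSubgroup I → hodgeTorus w V ⊆ zeros I ℂ →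
      ∀ X : Matrix d d ℂ, Xᵀ * E.map (algebraMap ℚ ℂ) + E.map (algebraMap ℚ ℂ) * X = 0 →
        X ∈ Ul I E) →
    ∀ (K : Type u) [Field K] [CharZero K], mtGroup w V K = similitudes E K

/-- MAF: the Hodge side of the main theorem -/
def MafStmt : Prop :=
  ∀ (d : Type) [Fintype d] [DecidableEq d] (F : Family d) (w : ℕ) (lev : d → ℕ), Odd w →
    ∀ P : Matrix d d ℂ, IsUnit P.det → ∀ (δ : ℕ) (c : Fin δ → ℂ),
    (∀ i j, IsAlgebraic (IntermediateField.adjoin ℚ (Set.range c)) (P i j)) →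
    ∀ κ : ℕ, (∀ p, Fintype.card {a // lev a = p} ≤ κ) →
    δ + (if F.N = 0 then 0 else 1) + 1 + κ < Fintype.card d →
    ∃ n0 : ℕ, ∀ n : ℕ, n0 ≤ n → ∀ (E : Matrix d d ℚ) (V : ℕ → Submodule ℂ (d → ℂ)),
      F.Fibre lev P w n E V → SpDense (F.Mo P) E →
      ∀ (K : Type u) [Field K] [CharZero K], mtGroup w V K = similitudes E K

end Pool.Agent.MTF
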