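import Mathlib

/-! MTF (few constants), statements of the purely algebraic modules. -/

set_option autoImplicit false

namespace Pool.Agent.MTF

open Matrix

/-! ### Fields and derivations -/

/-- DEX: existence of a derivation with given values. -/
def DexStmt : Prop :=
  ∀ (K : Type) [Field K] [CharZero K] (k : Subfield K) (σ : Type) [Fintype σ] (y v : σ → K),
    (∀ R : MvPolynomial σ k, MvPolynomial.aeval y R = 0 →
      ∑ i, MvPolynomial.aeval y (MvPolynomial.pderiv i R) * v i = 0) →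
    ∃ D : Derivation k K K, ∀ i, D (y i) = v i

/-- TRD: a combination of `m + 1` derivations kills what is algebraic over `m` elements. -/
def TrdStmt : Prop :=
  ∀ (K : Type) [Field K] [CharZero K] (k : Subfield K) (m : ℕ) (c : Fin m → K)
    (D : Fin (m + 1) → Derivation k K K),
    ∃ l : Fin (m + 1) → K, l ≠ 0 ∧ ∀ x : K,
      IsAlgebraic (IntermediateField.adjoin k (Set.range c)) x → ∑ j, l j * D j x = 0

/-- FLD: a derivation which moves the flag by `Z` has `Z` in the Lie algebra plus the stabiliser of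
the flag.  (`Q` = matrix of the periods, columns = forms; `Q G Q⁻¹` = grading element.) -/
def FldStmt : Prop :=
  ∀ (K : Type) [Field K] [CharZero K] (k : Subfield K) (d : Type) [Fintype d] [DecidableEq d]
    (lev : d → ℕ) (w : ℕ) (D : Derivation k K K) (Q Z G : Matrix d d K), IsUnit Q.det →
    Q.map D = Z * Q → (∀ b a, lev b < lev a → G b a = 0) →
    (∀ b a, lev b = lev a → G b a = if b = a then (lev a : K) - w / 2 else 0) →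
    ∀ (N : ℕ) (Y : Fin N → Matrix d d K) (h : Fin N → K), (∀ i a b, Y i a b ∈ k) →
    Q * G * Q⁻¹ = ∑ i, h i • Y i →
    (∀ i, (Q * G * Q⁻¹) * Y i - Y i * (Q * G * Q⁻¹) ∈ Submodule.span K (Set.range Y)) →
    ∃ (μ : Fin N → K) (C : Matrix d d K), (∀ b a, lev b < lev a → C b a = 0) ∧
      Z = ∑ i, μ i • Y i + Q * C * Q⁻¹

/-- COR: DEX, TRD and FLD together. -/
def CorStmt : Prop :=
  ∀ (K : Type) [Field K] [CharZero K] (k : Subfield K) (d : Type) [Fintype d] [DecidableEq d]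
    (lev : d → ℕ) (w m : ℕ) (c : Fin m → K) (U Yh : Matrix d d K)
    (x : Fin (m + 1) → Matrix d d K), IsUnit U.det → IsUnit Yh.det →
    (∀ i j, IsAlgebraic (IntermediateField.adjoin k (Set.range c)) (U i j)) →
    (∀ j, ∀ R : MvPolynomial (d × d) k, MvPolynomial.aeval (fun p => Yh p.1 p.2) R = 0 →
      ∑ p, MvPolynomial.aeval (fun p => Yh p.1 p.2) (MvPolynomial.pderiv p R) *
        (Yh * x j) p.1 p.2 = 0) →
    ∀ (Q G : Matrix d d K), Q = U * Yhᵀ → (∀ b a, lev b < lev a → G b a = 0) →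
    (∀ b a, lev b = lev a → G b a = if b = a then (lev a : K) - w / 2 else 0) →
    ∀ (N : ℕ) (Y : Fin N → Matrix d d K) (h : Fin N → K), (∀ i a b, Y i a b ∈ k) →
    Q * G * Q⁻¹ = ∑ i, h i • Y i →
    (∀ i, (Q * G * Q⁻¹) * Y i - Y i * (Q * G * Q⁻¹) ∈ Submodule.span K (Set.range Y)) →
    ∃ (l : Fin (m + 1) → K) (μ : Fin N → K) (C : Matrix d d K), l ≠ 0 ∧
      (∀ b a, lev b < lev a → C b a = 0) ∧
      ∑ j, l j • (U * (x j)ᵀ * U⁻¹) = ∑ i, μ i • Y i + Q * C * Q⁻¹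

/-! ### Lie algebras with a polarised Hodge structure of odd weight -/

variable {d : Type} [Fintype d] [DecidableEq d]

/-- the Hodge filtration -/
def Fil (V : ℕ → Submodule ℂ (d → ℂ)) (p : ℕ) : Submodule ℂ (d → ℂ) := ⨆ p' ∈ Set.Ici p, V p'

/-- the matrices which preserve the Hodge filtration -/
def F0 (V : ℕ → Submodule ℂ (d → ℂ)) : Submodule ℂ (Matrix d d ℂ) where
  carrier := {A | ∀ p, ∀ x ∈ Fil V p, A *ᵥ x ∈ Fil V p}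
  zero_mem' := fun p x _ => by rw [zero_mulVec]; exact Submodule.zero_mem _
  add_mem' := fun {A B} hA hB p x hx => by
    rw [add_mulVec]; exact Submodule.add_mem _ (hA p x hx) (hB p x hx)
  smul_mem' := fun c A hA p x hx => by
    rw [smul_mulVec]; exact Submodule.smul_mem _ _ (hA p x hx)

/-- infinitesimal isometries of `Ψ` -/
def sk (Ψ : Matrix d d ℂ) : Submodule ℂ (Matrix d d ℂ) where
  carrier := {X | Xᵀ * Ψ + Ψ * X = 0}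
  zero_mem' := by simp
  add_mem' := by
    intro X Y h1 h2
    change Xᵀ * Ψ + Ψ * X = 0 at h1
    change Yᵀ * Ψ + Ψ * Y = 0 at h2
    change (X + Y)ᵀ * Ψ + Ψ * (X + Y) = 0
    rw [transpose_add, add_mul, mul_add, add_add_add_comm, h1, h2, add_zero]
  smul_mem' := by
    intro c X h1
    change Xᵀ * Ψ + Ψ * X = 0 at h1
    change (c • X)ᵀ * Ψ + Ψ * (c • X) = 0
    rw [transpose_smul, smul_mul_assoc, mul_smul_comm, ← smul_add, h1, smul_zero]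

/-- `m` is a Lie algebra of infinitesimal isometries of the form `Ψ`, stable under complex
conjugation, which contains the grading element of the Hodge structure `V` of odd weight `w`,
polarised by `Ψ`. -/
structure HL (w : ℕ) (Ψ : Matrix d d ℂ) (V : ℕ → Submodule ℂ (d → ℂ))
    (m : Submodule ℂ (Matrix d d ℂ)) : Prop where
  odd : Odd w
  top : ∀ p, w < p → V p = ⊥
  indep : iSupIndep V
  span : ⨆ p, V p = ⊤
  conj : ∀ p ≤ w, ∀ x ∈ V p, star x ∈ V (w - p)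
  skew : Ψᵀ = -Ψ
  real : ∀ i j, star (Ψ i j) = Ψ i j
  orth : ∀ p q, p + q ≠ w → ∀ x ∈ V p, ∀ y ∈ V q, x ⬝ᵥ (Ψ *ᵥ y) = 0
  pos : ∀ p ≤ w, ∀ x ∈ V p, x ≠ 0 → ∃ t : ℝ, 0 < t ∧
    Complex.I ^ p * (-Complex.I) ^ (w - p) * (x ⬝ᵥ (Ψ *ᵥ star x)) = t
  br : ∀ X ∈ m, ∀ Y ∈ m, X * Y - Y * X ∈ m
  cj : ∀ X ∈ m, X.map star ∈ m
  le : m ≤ sk Ψ
  hh : ∃ H ∈ m, ∀ p, ∀ x ∈ V p, H *ᵥ x = ((p : ℂ) - w / 2) • x

/-- `U` is stable under `m` -/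
def Stab (m : Submodule ℂ (Matrix d d ℂ)) (U : Submodule ℂ (d → ℂ)) : Prop :=
  ∀ X ∈ m, ∀ x ∈ U, X *ᵥ x ∈ U

/-- any `m + 1` infinitesimal isometries are dependent modulo `g + F0` -/
def Dep (Ψ : Matrix d d ℂ) (V : ℕ → Submodule ℂ (d → ℂ)) (g : Submodule ℂ (Matrix d d ℂ))
    (m : ℕ) : Prop :=
  ∀ X : Fin (m + 1) → Matrix d d ℂ, (∀ j, X j ∈ sk Ψ) →
    ∃ l : Fin (m + 1) → ℂ, l ≠ 0 ∧ ∑ j, l j • X j ∈ g ⊔ F0 V

/-- CRD: trichotomy -/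
def CrdStmt : Prop :=
  ∀ (d : Type) [Fintype d] [DecidableEq d] (w : ℕ) (Ψ : Matrix d d ℂ)
    (V : ℕ → Submodule ℂ (d → ℂ)) (g : Submodule ℂ (Matrix d d ℂ)), HL w Ψ V g →
    (∀ U, Stab g U → U = ⊥ ∨ U = ⊤) ∨
    (∃ U U', Stab g U ∧ Stab g U' ∧ U ≠ ⊥ ∧ U' ≠ ⊥ ∧ IsCompl U U' ∧
      ∀ x ∈ U, ∀ y ∈ U', x ⬝ᵥ (Ψ *ᵥ y) = 0) ∨
    (∃ U U', Stab g U ∧ Stab g U' ∧ U ≠ ⊥ ∧ IsCompl U U' ∧
      (∀ x ∈ U, ∀ y ∈ U, x ⬝ᵥ (Ψ *ᵥ y) = 0) ∧ ∀ x ∈ U', ∀ y ∈ U', x ⬝ᵥ (Ψ *ᵥ y) = 0)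

/-- RK2: an irreducible Lie algebra of infinitesimal isometries with an element of square zero and
rank at most two -/
def Rk2Stmt : Prop :=
  ∀ (d : Type) [Fintype d] [DecidableEq d] (Ψ : Matrix d d ℂ), Ψᵀ = -Ψ → IsUnit Ψ.det →
    ∀ g : Submodule ℂ (Matrix d d ℂ), (∀ X ∈ g, ∀ Y ∈ g, X * Y - Y * X ∈ g) → g ≤ sk Ψ →
    (∀ U, Stab g U → U = ⊥ ∨ U = ⊤) →
    (∃ N ∈ g, N ≠ 0 ∧ N * N = 0 ∧ N.rank ≤ 2) → sk Ψ ≤ g

/-- IRR: the irreducible case -/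
def IrrStmt : Prop :=
  ∀ (d : Type) [Fintype d] [DecidableEq d] (w : ℕ) (Ψ : Matrix d d ℂ)
    (V : ℕ → Submodule ℂ (d → ℂ)) (g : Submodule ℂ (Matrix d d ℂ)), HL w Ψ V g →
    ∀ κ m : ℕ, (∀ p, Module.finrank ℂ (V p) ≤ κ) → m + κ < Fintype.card d → Dep Ψ V g m →
    ∃ N ∈ g, N ≠ 0 ∧ N * N = 0 ∧ N.rank ≤ 2

/-- SPL: the case of an orthogonal decomposition -/
def SplStmt : Prop :=
  ∀ (d : Type) [Fintype d] [DecidableEq d] (w : ℕ) (Ψ : Matrix d d ℂ)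
    (V : ℕ → Submodule ℂ (d → ℂ)) (g : Submodule ℂ (Matrix d d ℂ)), HL w Ψ V g →
    ∀ κ m : ℕ, (∀ p, Module.finrank ℂ (V p) ≤ κ) → Dep Ψ V g m →
    ∀ U U' : Submodule ℂ (d → ℂ), Stab g U → Stab g U' → U ≠ ⊥ → U' ≠ ⊥ → IsCompl U U' →
    (∀ x ∈ U, ∀ y ∈ U', x ⬝ᵥ (Ψ *ᵥ y) = 0) → Fintype.card d ≤ m + 1 + κ

/-- LAG: the case of two Lagrangian subspaces -/
def LagStmt : Prop :=
  ∀ (d : Type) [Fintype d] [DecidableEq d] (w : ℕ) (Ψ : Matrix d d ℂ)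
    (V : ℕ → Submodule ℂ (d → ℂ)) (g : Submodule ℂ (Matrix d d ℂ)), HL w Ψ V g →
    ∀ κ m : ℕ, (∀ p, Module.finrank ℂ (V p) ≤ κ) → Dep Ψ V g m →
    ∀ U U' : Submodule ℂ (d → ℂ), Stab g U → Stab g U' → U ≠ ⊥ → IsCompl U U' →
    (∀ x ∈ U, ∀ y ∈ U, x ⬝ᵥ (Ψ *ᵥ y) = 0) → (∀ x ∈ U', ∀ y ∈ U', x ⬝ᵥ (Ψ *ᵥ y) = 0) →
    Fintype.card d ≤ m + 1 + κ

/-- NUM: the numerical inequality of SPL -/
def NumStmt : Prop :=
  ∀ (P : Type) [Fintype P] (x y : P → ℕ) (κ : ℕ), (∀ p, x p + y p ≤ κ) →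
    1 ≤ ∑ p, x p → 1 ≤ ∑ p, y p →
    2 * (∑ p, x p + ∑ p, y p) + ∑ p, x p * y p ≤ 2 * ((∑ p, x p) * ∑ p, y p) + κ + 1

/-- CDL: the codimension bound -/
def CdlStmt : Prop :=
  ∀ (d : Type) [Fintype d] [DecidableEq d] (w : ℕ) (Ψ : Matrix d d ℂ)
    (V : ℕ → Submodule ℂ (d → ℂ)) (g : Submodule ℂ (Matrix d d ℂ)), HL w Ψ V g →
    ∀ κ m : ℕ, (∀ p, Module.finrank ℂ (V p) ≤ κ) → m + 1 + κ < Fintype.card d →
    Dep Ψ V g m → sk Ψ ≤ g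

/-- SPN: it suffices to test nilpotent infinitesimal isometries -/
def SpnStmt : Prop :=
  ∀ (d : Type) [Fintype d] [DecidableEq d] (Ψ : Matrix d d ℂ), Ψᵀ = -Ψ → IsUnit Ψ.det →
    ∀ (W : Submodule ℂ (Matrix d d ℂ)) (m : ℕ),
    (∀ X : Fin (m + 1) → Matrix d d ℂ, (∀ j, X j ∈ sk Ψ ∧ IsNilpotent (X j)) →
      ∃ l : Fin (m + 1) → ℂ, l ≠ 0 ∧ ∑ j, l j • X j ∈ W) →
    ∀ X : Fin (m + 1) → Matrix d d ℂ, (∀ j, X j ∈ sk Ψ) →
      ∃ l : Fin (m + 1) → ℂ, l ≠ 0 ∧ ∑ j, l j • X j ∈ W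

end Pool.Agent.MTF
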