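import Pool.Agent.Helper97_MTD.Ass
import Pool.Agent.Helper74_MTF.Ger5
import Pool.Agent.Helper74_MTF.Cor
import Pool.Agent.Helper74_MTF.Trd
import Pool.Agent.Helper74_MTF.Crd
import Pool.Agent.Helper69_MTF.Dex
import Pool.Agent.Helper10_MTF.Fld
import Pool.Agent.Helper17_MTF.Rk2
import Pool.Agent.Helper24_MTF.Irr
import Pool.Agent.Helper3_MTF.Spl
import Pool.Agent.Helper90_MTF.Lag3
import Pool.Agent.Helper90_MTF.Num
import Pool.Agent.Helper32_MTF.Cdl
import Pool.Agent.Helper32_MTF.Nip
import Pool.Agent.Helper20_MTF.Hls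
import Pool.Agent.Helper42_MTF.Gsp
import Pool.Agent.Helper76_MTF.Lvd
import Pool.Agent.Helper77_MTF.Per
import Pool.Agent.Helper98_MTF.MAF

/-! MTF (few constants): assembly of the Hodge side. -/

set_option autoImplicit false

namespace Pool.Agent.MTF

open Pool.Agent.MT100D

universe u

/-- module CDL, unconditional -/
theorem cdl' : CdlStmt := H32.cdl H74.crd H17.rk2 H24.irr (H3.spl H90.num) H90.lag

/-- module COR, unconditional -/
theorem cor' : CorStmt := H74.cor H69.dex H74.trd H10.fld

/-- module COD, unconditional -/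
theorem cod' : CodStmt :=
  H74.cod cor' (H77.per MT100D.H97.nma' MT100D.H64.vagD) H32.nip MT100D.H64.vagD MT100D.H97.bas

/-- the Hodge side of the main theorem -/
theorem maf' : MafStmt.{u} := H98.maf cod' cdl' H20.hls H76.lvd H42.gsp H90.spn

end Pool.Agent.MTF
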